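import Mathlib

set_option autoImplicit false

/-! Monotone chains avoiding a colour. -/

namespace Pool.Agent.R326.PC

open Finset

/-- a chain of length `j` with values at most `a` -/
def Ch (Hit : ℕ → ℕ → Prop) (j a : ℕ) : Prop :=
  ∃ α : ℕ → ℕ, (∀ t, t < j → α t ≤ a ∧ ¬ Hit t (α t)) ∧ ∀ t t', t ≤ t' → t' < j → α t ≤ α t'

lemma Ch.mono {Hit : ℕ → ℕ → Prop} {j a a' : ℕ} (h : Ch Hit j a) (ha : a ≤ a') :
    Ch Hit j a' := by
  obtain ⟨α, h1, h2⟩ := h
  exact ⟨α, fun t ht => ⟨le_trans (h1 t ht).1 ha, (h1 t ht).2⟩, h2⟩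

lemma greedy {Hit : ℕ → ℕ → Prop} {d N : ℕ} (h : ¬ Ch Hit d N) :
    ∃ G : ℕ → ℕ, (∀ a a', a ≤ a' → a' ≤ N → G a ≤ G a') ∧
      ∀ a, a ≤ N → G a < d ∧ Hit (G a) a := by
  classical
  refine ⟨fun a => Nat.findGreatest (fun j => Ch Hit j a) d, ?_, ?_⟩
  · intro a a' haa _
    exact Nat.findGreatest_mono_left (fun j hj => hj.mono haa) d
  · intro a ha
    obtain ⟨j, hj⟩ : ∃ j, j = Nat.findGreatest (fun j => Ch Hit j a) d := ⟨_, rfl⟩
    have h0 : Ch Hit 0 a := ⟨fun _ => 0, fun t ht => absurd ht (by omega), fun t t' _ ht =>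
      absurd ht (by omega)⟩
    have hP : Ch Hit j a := by
      rw [hj]
      exact Nat.findGreatest_spec (P := fun j => Ch Hit j a) (Nat.zero_le d) h0
    have hle : j ≤ d := by rw [hj]; exact Nat.findGreatest_le d
    have hlt : j < d := by
      rcases Nat.lt_or_eq_of_le hle with h1 | h1
      · exact h1
      · exact absurd (h1 ▸ hP.mono ha) h
    simp only
    rw [← hj]
    refine ⟨hlt, ?_⟩
    by_contra hH
    have hP' : Ch Hit (j + 1) a := by
      obtain ⟨α, h1, h2⟩ := hP
      refine ⟨fun t => if t < j then α t else a, ?_, ?_⟩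
      · intro t ht
        by_cases htj : t < j
        · simp only [if_pos htj]; exact h1 t htj
        · have : t = j := by omega
          subst this
          simp only [if_neg htj]
          exact ⟨le_refl _, hH⟩
      · intro t t' htt ht'
        by_cases h3 : t' < j
        · have h4 : t < j := by omega
          simp only [if_pos h3, if_pos h4]
          exact h2 t t' htt h3
        · simp only [if_neg h3]
          by_cases h4 : t < j
          · simp only [if_pos h4]; exact (h1 t h4).1
          · simp only [if_neg h4]; exact le_refl _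
    have := Nat.le_findGreatest (P := fun j => Ch Hit j a) (n := d) (by omega : j + 1 ≤ d) hP'
    rw [← hj] at this
    omega

/-- the position `a` of class `i` meets the colour `c` -/
def HitC {s : ℕ} (χ : ℕ → ℕ → Fin s) (N d : ℕ) (c : Fin s) (i a : ℕ) : Prop :=
  ∃ k, k < d ∧ χ (a + min k i) (N - a + (k - min k i)) = c

lemma exists_chain {s d : ℕ} (hs : d + 1 ≤ s) (χ : ℕ → ℕ → Fin s) (N : ℕ) (hN : N = d * d) :
    ∃ c : Fin s, Ch (HitC χ N d c) d N := by
  classical
  by_contra hcon
  push Not at hcon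
  have h1 : ∀ c : Fin s, ∃ G : ℕ → ℕ, (∀ a a', a ≤ a' → a' ≤ N → G a ≤ G a') ∧
      ∀ a, a ≤ N → G a < d ∧ HitC χ N d c (G a) a := fun c => greedy (hcon c)
  choose G hG1 hG2 using h1
  have h2 : ∀ c : Fin s, ∀ a : Fin (N + 1), ∃ k, k < d ∧
      χ (a.val + min k (G c a)) (N - a.val + (k - min k (G c a))) = c :=
    fun c a => (hG2 c a.val (by omega)).2
  choose k hk1 hk2 using h2
  let Φ : Fin s × Fin (N + 1) → Fin d × Fin (N + d) := fun z =>
    (⟨k z.1 z.2, hk1 z.1 z.2⟩, ⟨z.2.val + min (k z.1 z.2) (G z.1 z.2), by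
      have := hk1 z.1 z.2
      have := z.2.isLt
      omega⟩)
  have hΦ : Function.Injective Φ := by
    rintro ⟨c, a⟩ ⟨c', a'⟩ he
    simp only [Φ, Prod.mk.injEq, Fin.mk.injEq] at he
    obtain ⟨he1, he2⟩ := he
    have ha := a.isLt
    have ha' := a'.isLt
    have hcc : c = c' := by
      have e1 := hk2 c a
      have e2 := hk2 c' a'
      rw [← e1, ← e2, he2]
      congr 1
      omega
    subst hcc
    have haa : a.val = a'.val := by
      rcases lt_trichotomy a.val a'.val with h | h | h
      · have := hG1 c a.val a'.val (le_of_lt h) (by omega)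
        have h5 : min (k c a) (G c a) ≤ min (k c a') (G c a') := by
          rw [he1]; exact min_le_min_left _ this
        omega
      · exact h
      · have := hG1 c a'.val a.val (le_of_lt h) (by omega)
        have h5 : min (k c a') (G c a') ≤ min (k c a) (G c a) := by
          rw [← he1]; exact min_le_min_left _ this
        omega
    rw [Fin.ext haa]
  have hcard := Fintype.card_le_of_injective Φ hΦ
  simp only [Fintype.card_prod, Fintype.card_fin] at hcard
  have h3 : (d + 1) * (N + 1) ≤ d * (N + d) :=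
    le_trans (Nat.mul_le_mul_right _ hs) hcard
  rw [hN] at h3
  nlinarith

end Pool.Agent.R326.PC
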