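import Pool.Agent.R326.PC.Rigid

set_option autoImplicit false

/-! The colouring by levels. -/

namespace Pool.Agent.R326.PC

open Finset

variable {n d : ℕ}

/-- the number of common ones, the level of the lower end point of an edge -/
def lev (a b : Fin n → Bool) : ℕ := (univ.filter (fun q => a q = true ∧ b q = true)).card

lemma lev_comm (a b : Fin n → Bool) : lev a b = lev b a := by
  unfold lev
  congr 1
  ext q
  simp [and_comm]

lemma card_seg {d t : ℕ} (ht : t < d) :
    (univ.filter (fun i : Fin d => 1 ≤ i.val ∧ i.val ≤ t)).card = t := by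
  have h : (univ.filter (fun i : Fin d => 1 ≤ i.val ∧ i.val ≤ t)).map Fin.valEmbedding =
      Finset.Icc 1 t := by
    ext a
    simp only [mem_map, mem_filter, mem_univ, true_and, Fin.valEmbedding_apply, mem_Icc]
    constructor
    · rintro ⟨i, hi, rfl⟩; exact hi
    · intro ha; exact ⟨⟨a, by omega⟩, ha, rfl⟩
  rw [← card_map Fin.valEmbedding, h, Nat.card_Icc]
  omega

lemma lower (hd : 0 < d) (f : (Fin d → Bool) → (Fin n → Bool)) (hinj : Function.Injective f)
    (hadj : ∀ x y, (GG d).Adj x y → (Q n).Adj (f x) (f y)) (c : Fin d) :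
    ∃ u v, (GG d).Adj u v ∧ lev (f u) (f v) % d = c := by
  classical
  obtain ⟨φ, hφ, hall⟩ := rigid f hinj hadj
  have hform := fun x => formula f hφ hall _ x rfl
  obtain ⟨f0, hf0⟩ : ∃ f0, f0 = f (fun _ => false) := ⟨_, rfl⟩
  rw [← hf0] at hform
  obtain ⟨i0, hi0⟩ : ∃ i0 : Fin d, i0 = ⟨0, hd⟩ := ⟨_, rfl⟩
  have hc0 : ∀ x, Cond i0 x := by
    intro x
    right
    intro j hj
    rw [hi0] at hj
    exact absurd hj (by rw [Fin.lt_def]; simp)
  obtain ⟨C, hC⟩ : ∃ C, C = (univ.filter (fun q => (∀ i, φ i ≠ q) ∧ f0 q = true)).card := ⟨_, rfl⟩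
  obtain ⟨t, ht, htc⟩ : ∃ t, t < d ∧ (t + C) % d = c := by
    refine ⟨(c.val + (d - C % d)) % d, Nat.mod_lt _ hd, ?_⟩
    have h1 : C % d < d := Nat.mod_lt _ hd
    have h2 : C = d * (C / d) + C % d := (Nat.div_add_mod C d).symm
    rw [Nat.mod_add_mod]
    have : c.val + (d - C % d) + C = c.val + d * (C / d + 1) := by
      rw [mul_add]; omega
    rw [this, Nat.add_mul_mod_self_left, Nat.mod_eq_of_lt c.isLt]
  obtain ⟨y, hy⟩ : ∃ y : Fin d → Bool, y = fun i => decide (1 ≤ i.val ∧ i.val ≤ t) := ⟨_, rfl⟩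
  obtain ⟨x, hx⟩ : ∃ x : Fin d → Bool, x = fun i => xor (y i) (f0 (φ i)) := ⟨_, rfl⟩
  have hfx : ∀ i, f x (φ i) = y i := by
    intro i
    rw [(hform x).1 i, hx]
    simp
  refine ⟨x, fl x i0, ⟨i0, diffAt_fl x i0, hc0 x⟩, ?_⟩
  have hdir : DiffAt (f x) (f (fl x i0)) (φ i0) := hall x i0 (hc0 x)
  have hset : univ.filter (fun q => f x q = true ∧ f (fl x i0) q = true) =
      (univ.filter (fun i : Fin d => 1 ≤ i.val ∧ i.val ≤ t)).map ⟨φ, hφ⟩ ∪
        univ.filter (fun q => (∀ i, φ i ≠ q) ∧ f0 q = true) := by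
    ext q
    simp only [mem_filter, mem_univ, true_and, mem_union, mem_map, Function.Embedding.coeFn_mk]
    constructor
    · rintro ⟨h1, h2⟩
      by_cases hq : ∃ i, φ i = q
      · left
        obtain ⟨i, rfl⟩ := hq
        refine ⟨i, ?_, rfl⟩
        rw [hfx i, hy] at h1
        simpa using h1
      · right
        push Not at hq
        refine ⟨hq, ?_⟩
        rw [← (hform x).2 q hq]; exact h1
    · rintro (⟨i, hi, rfl⟩ | ⟨hq, h1⟩)
      · have h1 : f x (φ i) = true := by rw [hfx i, hy]; simpa using hi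
        refine ⟨h1, ?_⟩
        have hne : φ i ≠ φ i0 := by
          intro he
          have := hφ he
          rw [this, hi0] at hi
          simp at hi
        rw [← hdir.eq_off hne]; exact h1
      · have h2 : f x q = true := by rw [(hform x).2 q hq]; exact h1
        refine ⟨h2, ?_⟩
        rw [← hdir.eq_off (Ne.symm (hq i0))]; exact h2
  have hlev : lev (f x) (f (fl x i0)) = t + C := by
    unfold lev
    rw [hset, card_union_of_disjoint, card_map, card_seg ht, hC]
    rw [Finset.disjoint_left]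
    intro q hq1 hq2
    simp only [mem_map, mem_filter, mem_univ, true_and, Function.Embedding.coeFn_mk] at hq1 hq2
    obtain ⟨i, _, hi⟩ := hq1
    exact hq2.1 i hi
  rw [hlev]; exact htc

end Pool.Agent.R326.PC
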