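import Mathlib

set_option autoImplicit false

/-! Rigidity of the staircase subgraph of the hypercube. -/

namespace Pool.Agent.R326.PC

/-- `x` and `y` differ exactly in coordinate `p` -/
def DiffAt {n : ℕ} (x y : Fin n → Bool) (p : Fin n) : Prop := ∀ j, x j ≠ y j ↔ j = p

/-- the hypercube graph -/
def Q (n : ℕ) : SimpleGraph (Fin n → Bool) where
  Adj x y := ∃ i, ∀ j, x j ≠ y j ↔ j = i
  symm := ⟨by
    rintro x y ⟨i, hi⟩
    exact ⟨i, fun j => by rw [ne_comm]; exact hi j⟩⟩
  loopless := ⟨by
    rintro x ⟨i, hi⟩
    exact (hi i).2 rfl rfl⟩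

/-- change coordinate `i` -/
def fl {n : ℕ} (x : Fin n → Bool) (i : Fin n) : Fin n → Bool := Function.update x i (!x i)

/-- all ones of `x` are to the left of `i`, or all coordinates to the left of `i` are one -/
def Cond {d : ℕ} (i : Fin d) (x : Fin d → Bool) : Prop :=
  (∀ j, i < j → x j = false) ∨ (∀ j, j < i → x j = true)

/-- the staircase graph -/
def GG (d : ℕ) : SimpleGraph (Fin d → Bool) where
  Adj x y := ∃ i, (∀ j, x j ≠ y j ↔ j = i) ∧ Cond i x
  symm := ⟨by
    rintro x y ⟨i, hi, hc⟩
    have he : ∀ j, j ≠ i → x j = y j := fun j hj => by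
      by_contra h
      exact hj ((hi j).1 h)
    refine ⟨i, fun j => by rw [ne_comm]; exact hi j, ?_⟩
    rcases hc with hc | hc
    · left
      intro j hj
      rw [← he j (ne_of_gt hj)]
      exact hc j hj
    · right
      intro j hj
      rw [← he j (ne_of_lt hj)]
      exact hc j hj⟩
  loopless := ⟨by
    rintro x ⟨i, hi, _⟩
    exact (hi i).2 rfl rfl⟩

variable {n d : ℕ}

lemma fl_same (x : Fin n → Bool) (i : Fin n) : fl x i i = !x i := by simp [fl]

lemma fl_ne (x : Fin n → Bool) {i j : Fin n} (h : j ≠ i) : fl x i j = x j := by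
  simp [fl, h]

lemma fl_fl (x : Fin n → Bool) (i : Fin n) : fl (fl x i) i = x := by
  funext j
  by_cases h : j = i
  · subst h; simp [fl_same]
  · rw [fl_ne _ h, fl_ne _ h]

lemma fl_comm (x : Fin n → Bool) (i m : Fin n) : fl (fl x i) m = fl (fl x m) i := by
  funext j
  by_cases h : j = i
  · subst h
    by_cases h2 : j = m
    · subst h2; rfl
    · rw [fl_ne _ h2, fl_same, fl_same, fl_ne _ h2]
  · by_cases h2 : j = m
    · subst h2
      rw [fl_ne _ h, fl_same, fl_same, fl_ne _ h]
    · rw [fl_ne _ h2, fl_ne _ h, fl_ne _ h, fl_ne _ h2]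

lemma diffAt_fl (x : Fin n → Bool) (i : Fin n) : DiffAt x (fl x i) i := by
  intro j
  by_cases h : j = i
  · subst h; simp [fl_same]
  · simp [fl_ne _ h, h]

lemma DiffAt.symm {x y : Fin n → Bool} {p : Fin n} (h : DiffAt x y p) : DiffAt y x p :=
  fun j => by rw [ne_comm]; exact h j

lemma DiffAt.eq_off {x y : Fin n → Bool} {p j : Fin n} (h : DiffAt x y p) (hj : j ≠ p) :
    x j = y j := by
  by_contra hc
  exact hj ((h j).1 hc)

lemma DiffAt.ne_at {x y : Fin n → Bool} {p : Fin n} (h : DiffAt x y p) : x p ≠ y p := (h p).2 rfl

lemma DiffAt.unique {x y : Fin n → Bool} {p q : Fin n} (h : DiffAt x y p) (h' : DiffAt x y q) :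
    p = q := (h' p).1 h.ne_at

lemma DiffAt.unique_right {x y z : Fin n → Bool} {p : Fin n} (h : DiffAt x y p)
    (h' : DiffAt x z p) : y = z := by
  funext j
  by_cases hj : j = p
  · subst hj
    have h1 := h.ne_at
    have h2 := h'.ne_at
    revert h1 h2
    cases x j <;> cases y j <;> cases z j <;> simp
  · rw [← h.eq_off hj, ← h'.eq_off hj]

/-- opposite edges of a four-cycle are parallel -/
lemma square {a b c e : Fin n → Bool} {p p' q q' : Fin n} (hab : DiffAt a b p)
    (hec : DiffAt e c p') (hbc : DiffAt b c q) (hae : DiffAt a e q') (hac : a ≠ c) (hbe : b ≠ e) :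
    p' = p := by
  by_contra hne
  have h1 : a p ≠ b p := hab.ne_at
  have h2 : e p = c p := hec.eq_off (Ne.symm hne)
  have hq' : p ≠ q' := by
    rintro rfl
    exact hbe (hab.unique_right hae)
  have hq : p ≠ q := by
    rintro rfl
    exact hac (hab.symm.unique_right hbc)
  have h3 := hbc.eq_off hq
  have h4 := hae.eq_off hq'
  exact h1 (by rw [h4, h2, h3])

lemma cond_fl_self {i : Fin d} {x : Fin d → Bool} (h : Cond i x) : Cond i (fl x i) := by
  rcases h with h | h
  · left; intro j hj; rw [fl_ne _ (ne_of_gt hj)]; exact h j hj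
  · right; intro j hj; rw [fl_ne _ (ne_of_lt hj)]; exact h j hj

section
variable (f : (Fin d → Bool) → (Fin n → Bool)) (hinj : Function.Injective f)
  (hadj : ∀ x y, (GG d).Adj x y → (Q n).Adj (f x) (f y))

def Dir (x : Fin d → Bool) (i : Fin d) (p : Fin n) : Prop := DiffAt (f x) (f (fl x i)) p

include hadj in
lemma exists_dir {x : Fin d → Bool} {i : Fin d} (h : Cond i x) : ∃ p, Dir f x i p :=
  hadj x (fl x i) ⟨i, diffAt_fl x i, h⟩

lemma Dir.flip {x : Fin d → Bool} {i : Fin d} {p : Fin n} (h : Dir f x i p) :
    Dir f (fl x i) i p := by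
  unfold Dir at *
  rw [fl_fl]
  exact h.symm

include hinj hadj in
lemma sq {x : Fin d → Bool} {i m : Fin d} {p : Fin n} (him : i ≠ m)
    (h2 : Cond i (fl x m)) (h3 : Cond m x) (h4 : Cond m (fl x i)) (hp : Dir f x i p) :
    Dir f (fl x m) i p := by
  obtain ⟨p', hp'⟩ := exists_dir f hadj h2
  obtain ⟨q', hq'⟩ := exists_dir f hadj h3
  obtain ⟨q, hq⟩ := exists_dir f hadj h4
  have e : fl (fl x i) m = fl (fl x m) i := fl_comm x i m
  unfold Dir at *
  rw [e] at hq
  have := square hp hp' hq hq' ?_ ?_
  · rw [← this]; exact hp'
  · intro h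
    have h5 := congrFun (hinj h) i
    rw [fl_same, fl_ne _ him] at h5
    simp at h5
  · intro h
    have h5 := congrFun (hinj h) i
    rw [fl_same, fl_ne _ him] at h5
    simp at h5

/-- the base point -/
def base (i : Fin d) : Fin d → Bool := fun j => decide (j < i)

lemma cond_base (i : Fin d) : Cond i (base i) := by
  left; intro j hj; simp [base, le_of_lt hj]

lemma cond_base' {i j : Fin d} (h : i < j) : Cond j (base i) := by
  left; intro k hk; simp [base, le_of_lt (lt_trans h hk)]

include hinj hadj in
/-- edges of type B -/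
lemma dirB {i : Fin d} {p : Fin n} (hp : Dir f (base i) i p) :
    ∀ N : ℕ, ∀ x : Fin d → Bool, (Finset.univ.filter (fun j => i < j ∧ x j = true)).card = N →
      (∀ j, j < i → x j = true) → Dir f x i p := by
  intro N
  induction N with
  | zero =>
    intro x hx hl
    rw [Finset.card_eq_zero, Finset.filter_eq_empty_iff] at hx
    have hr : ∀ j, i < j → x j = false := by
      intro j hj
      have := hx (Finset.mem_univ j)
      simp only [not_and, Bool.not_eq_true] at this
      exact this hj
    cases hxi : x i with
    | false =>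
      have : x = base i := by
        funext j
        rcases lt_trichotomy j i with h | h | h
        · simp [base, h, hl j h]
        · subst h; simp [base, hxi]
        · simp [base, le_of_lt h, hr j h]
      rw [this]; exact hp
    | true =>
      have : x = fl (base i) i := by
        funext j
        rcases lt_trichotomy j i with h | h | h
        · rw [fl_ne _ (ne_of_lt h)]; simp [base, h, hl j h]
        · subst h; rw [fl_same]; simp [base, hxi]
        · rw [fl_ne _ (ne_of_gt h)]; simp [base, le_of_lt h, hr j h]
      rw [this]; exact hp.flip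
  | succ N ih =>
    intro x hx hl
    have hne : (Finset.univ.filter (fun j => i < j ∧ x j = true)).Nonempty := by
      rw [← Finset.card_pos]; omega
    obtain ⟨m, hm⟩ : ∃ m, m = (Finset.univ.filter (fun j => i < j ∧ x j = true)).max' hne :=
      ⟨_, rfl⟩
    have hmm := Finset.max'_mem _ hne
    rw [← hm] at hmm
    simp only [Finset.mem_filter, Finset.mem_univ, true_and] at hmm
    have hmax : ∀ j, m < j → x j = false := by
      intro j hj
      by_contra hc
      have hc' : x j = true := by simpa using hc
      have := Finset.le_max' (Finset.univ.filter (fun j => i < j ∧ x j = true)) j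
        (by simp [hc', lt_trans hmm.1 hj])
      rw [← hm] at this
      exact absurd hj (not_lt.2 this)
    have hcard : (Finset.univ.filter (fun j => i < j ∧ (fl x m) j = true)).card = N := by
      have : (Finset.univ.filter (fun j => i < j ∧ (fl x m) j = true)) =
          (Finset.univ.filter (fun j => i < j ∧ x j = true)).erase m := by
        ext j
        simp only [Finset.mem_filter, Finset.mem_univ, true_and, Finset.mem_erase]
        by_cases hj : j = m
        · subst hj; rw [fl_same, hmm.2]; simp
        · rw [fl_ne _ hj]; simp [hj]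
      rw [this, Finset.card_erase_of_mem (by simp [hmm]), hx]; rfl
    have hl' : ∀ j, j < i → (fl x m) j = true := fun j hj => by
      rw [fl_ne _ (ne_of_lt (lt_trans hj hmm.1))]; exact hl j hj
    have h1 := ih (fl x m) hcard hl'
    have h2 := sq f hinj hadj (x := fl x m) (i := i) (m := m) (p := p) (ne_of_lt hmm.1)
      (by rw [fl_fl]; exact Or.inr hl)
      (Or.inl fun j hj => by rw [fl_ne _ (ne_of_gt hj)]; exact hmax j hj)
      (Or.inl fun j hj => by
        rw [fl_ne _ (ne_of_gt (lt_trans hmm.1 hj)), fl_ne _ (ne_of_gt hj)]; exact hmax j hj)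
      h1
    rw [fl_fl] at h2
    exact h2

include hinj hadj in
/-- edges of type A -/
lemma dirA {i : Fin d} {p : Fin n} (hp : Dir f (base i) i p) :
    ∀ N : ℕ, ∀ x : Fin d → Bool, (Finset.univ.filter (fun j => j < i ∧ x j = false)).card = N →
      (∀ j, i < j → x j = false) → Dir f x i p := by
  intro N
  induction N with
  | zero =>
    intro x hx hr
    rw [Finset.card_eq_zero, Finset.filter_eq_empty_iff] at hx
    refine dirB f hinj hadj hp _ x rfl ?_
    intro j hj
    have := hx (Finset.mem_univ j)
    simp only [not_and, Bool.not_eq_false] at this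
    exact this hj
  | succ N ih =>
    intro x hx hr
    have hne : (Finset.univ.filter (fun j => j < i ∧ x j = false)).Nonempty := by
      rw [← Finset.card_pos]; omega
    obtain ⟨m, hm⟩ : ∃ m, m = (Finset.univ.filter (fun j => j < i ∧ x j = false)).min' hne :=
      ⟨_, rfl⟩
    have hmm := Finset.min'_mem _ hne
    rw [← hm] at hmm
    simp only [Finset.mem_filter, Finset.mem_univ, true_and] at hmm
    have hmin : ∀ j, j < m → x j = true := by
      intro j hj
      by_contra hc
      have hc' : x j = false := by simpa using hc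
      have := Finset.min'_le (Finset.univ.filter (fun j => j < i ∧ x j = false)) j
        (by simp [hc', lt_trans hj hmm.1])
      rw [← hm] at this
      exact absurd hj (not_lt.2 this)
    have hcard : (Finset.univ.filter (fun j => j < i ∧ (fl x m) j = false)).card = N := by
      have : (Finset.univ.filter (fun j => j < i ∧ (fl x m) j = false)) =
          (Finset.univ.filter (fun j => j < i ∧ x j = false)).erase m := by
        ext j
        simp only [Finset.mem_filter, Finset.mem_univ, true_and, Finset.mem_erase]
        by_cases hj : j = m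
        · subst hj; rw [fl_same, hmm.2]; simp
        · rw [fl_ne _ hj]; simp [hj]
      rw [this, Finset.card_erase_of_mem (by simp [hmm]), hx]; rfl
    have hr' : ∀ j, i < j → (fl x m) j = false := fun j hj => by
      rw [fl_ne _ (ne_of_gt (lt_trans hmm.1 hj))]; exact hr j hj
    have h1 := ih (fl x m) hcard hr'
    have h2 := sq f hinj hadj (x := fl x m) (i := i) (m := m) (p := p) (ne_of_gt hmm.1)
      (by rw [fl_fl]; exact Or.inl hr)
      (Or.inr fun j hj => by rw [fl_ne _ (ne_of_lt hj)]; exact hmin j hj)
      (Or.inr fun j hj => by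
        rw [fl_ne _ (ne_of_lt (lt_trans hj hmm.1)), fl_ne _ (ne_of_lt hj)]; exact hmin j hj)
      h1
    rw [fl_fl] at h2
    exact h2

include hinj hadj in
/-- every copy of the staircase graph is the obvious one -/
lemma rigid : ∃ φ : Fin d → Fin n, Function.Injective φ ∧
    (∀ x i, Cond i x → Dir f x i (φ i)) := by
  have h1 : ∀ i : Fin d, ∃ p, Dir f (base i) i p := fun i => exists_dir f hadj (cond_base i)
  choose φ hφ using h1
  have hall : ∀ x i, Cond i x → Dir f x i (φ i) := by
    intro x i hc
    rcases hc with hc | hc
    · exact dirA f hinj hadj (hφ i) _ x rfl hc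
    · exact dirB f hinj hadj (hφ i) _ x rfl hc
  refine ⟨φ, ?_, hall⟩
  have key : ∀ i j : Fin d, i < j → φ i ≠ φ j := by
    intro i j hij he
    have h1 := hall (base i) i (cond_base i)
    have h2 := hall (base i) j (cond_base' hij)
    rw [← he] at h2
    have h3 := hinj (h1.unique_right h2)
    have h4 := congrFun h3 i
    rw [fl_same, fl_ne _ (ne_of_lt hij)] at h4
    simp at h4
  intro i j he
  rcases lt_trichotomy i j with h | h | h
  · exact absurd he (key i j h)
  · exact h
  · exact absurd he.symm (key j i h)

/-- the formula for a copy -/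
lemma formula {φ : Fin d → Fin n} (hφ : Function.Injective φ)
    (hall : ∀ x i, Cond i x → Dir f x i (φ i)) :
    ∀ N : ℕ, ∀ x : Fin d → Bool, (Finset.univ.filter (fun j => x j = true)).card = N →
      (∀ i, f x (φ i) = xor (x i) (f (fun _ => false) (φ i))) ∧
      (∀ q, (∀ i, φ i ≠ q) → f x q = f (fun _ => false) q) := by
  intro N
  induction N with
  | zero =>
    intro x hx
    rw [Finset.card_eq_zero, Finset.filter_eq_empty_iff] at hx
    have : x = fun _ => false := by
      funext j
      have := hx (Finset.mem_univ j)
      simpa using this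
    subst this
    exact ⟨fun i => by simp, fun q _ => rfl⟩
  | succ N ih =>
    intro x hx
    have hne : (Finset.univ.filter (fun j => x j = true)).Nonempty := by
      rw [← Finset.card_pos]; omega
    obtain ⟨m, hm⟩ : ∃ m, m = (Finset.univ.filter (fun j => x j = true)).max' hne :=
      ⟨_, rfl⟩
    have hmm := Finset.max'_mem _ hne
    rw [← hm] at hmm
    simp only [Finset.mem_filter, Finset.mem_univ, true_and] at hmm
    have hmax : ∀ j, m < j → x j = false := by
      intro j hj
      by_contra hc
      have hc' : x j = true := by simpa using hc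
      have := Finset.le_max' (Finset.univ.filter (fun j => x j = true)) j (by simp [hc'])
      rw [← hm] at this
      exact absurd hj (not_lt.2 this)
    have hcard : (Finset.univ.filter (fun j => (fl x m) j = true)).card = N := by
      have : (Finset.univ.filter (fun j => (fl x m) j = true)) =
          (Finset.univ.filter (fun j => x j = true)).erase m := by
        ext j
        simp only [Finset.mem_filter, Finset.mem_univ, true_and, Finset.mem_erase]
        by_cases hj : j = m
        · subst hj; rw [fl_same, hmm]; simp
        · rw [fl_ne _ hj]; simp [hj]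
      rw [this, Finset.card_erase_of_mem (by simp [hmm]), hx]; rfl
    obtain ⟨h1, h2⟩ := ih (fl x m) hcard
    have hd : Dir f x m (φ m) := hall x m (Or.inl hmax)
    unfold Dir at hd
    refine ⟨fun i => ?_, fun q hq => ?_⟩
    · by_cases hi : i = m
      · subst hi
        have h3 := h1 i
        rw [fl_same] at h3
        have h4 := hd.ne_at
        rw [h3] at h4
        rw [hmm] at h4 ⊢
        revert h4
        cases f x (φ i) <;> cases f (fun _ => false) (φ i) <;> simp
      · have h3 := h1 i
        rw [fl_ne _ hi] at h3
        rw [← h3]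
        exact hd.eq_off (fun h => hi (hφ h))
    · rw [← h2 q hq]
      exact hd.eq_off (Ne.symm (hq m))

end

end Pool.Agent.R326.PC
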