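import Pool.Agent.H685R2.DIM.Ramsey

set_option autoImplicit false

/-! Ramsey reduction to simple colourings. -/

namespace Pool.Agent.R326.PC

open Finset

lemma simple (s : ℕ) [NeZero s] (M : ℕ) :
    ∃ n : ℕ, 1 ≤ n ∧ ∀ E : Finset ℕ → ℕ → Fin s, ∃ g : ℕ → ℕ,
      (∀ a b, a < b → b < M → g a < g b) ∧ (∀ a, a < M → g a < n) ∧
      ∃ χ : ℕ → ℕ → Fin s, ∀ A : Finset ℕ, A ⊆ range M → ∀ b, b < M → b ∉ A →
        E (A.image g) (g b) = χ (A.filter (fun a => a < b)).card (A.filter (fun a => b < a)).card := by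
  classical
  obtain ⟨N, hN⟩ := H685R2.DIM.ramsey_gen (Fin M → Fin M → Fin s) M (2 * M)
  refine ⟨N + 1, by omega, fun E => ?_⟩
  obtain ⟨T, hTS, hTc, k, hk⟩ := hN (range N)
    (fun L l r => E ((L.take l.val ++ (L.drop (l.val + 1)).take r.val).toFinset) (L.getD l.val 0))
    (by rw [card_range])
  let e := T.orderEmbOfFin hTc
  obtain ⟨g, hg⟩ : ∃ g : ℕ → ℕ, g = fun a => if h : a < 2 * M then e ⟨a, h⟩ else 0 := ⟨_, rfl⟩
  have hgm : ∀ a b, a < b → b < 2 * M → g a < g b := by
    intro a b hab hb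
    rw [hg]
    simp only [dif_pos hb, dif_pos (lt_trans hab hb)]
    exact (e.lt_iff_lt).2 (by rw [Fin.lt_def]; exact hab)
  have hgT : ∀ a, a < 2 * M → g a ∈ T := by
    intro a ha
    rw [hg]
    simp only [dif_pos ha]
    exact T.orderEmbOfFin_mem hTc _
  refine ⟨g, fun a b hab hb => hgm a b hab (by omega), fun a ha => ?_,
    fun l r => if h : l < M ∧ r < M then k ⟨l, h.1⟩ ⟨r, h.2⟩ else 0, ?_⟩
  · have := mem_range.1 (hTS (hgT a (by omega)))
    omega
  intro A hA b hb hbA
  obtain ⟨A1, hA1⟩ : ∃ A1, A1 = A.filter (fun a => a < b) := ⟨_, rfl⟩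
  obtain ⟨A2, hA2⟩ : ∃ A2, A2 = A.filter (fun a => b < a) := ⟨_, rfl⟩
  rw [← hA1, ← hA2]
  have hAu : A = A1 ∪ A2 := by
    ext a
    rw [hA1, hA2]
    simp only [mem_union, mem_filter]
    constructor
    · intro ha
      rcases lt_trichotomy a b with h | h | h
      · exact Or.inl ⟨ha, h⟩
      · exact absurd ha (h ▸ hbA)
      · exact Or.inr ⟨ha, h⟩
    · rintro (h | h)
      · exact h.1
      · exact h.1
  have hdis : Disjoint A1 A2 := by
    rw [Finset.disjoint_left]
    intro a h1 h2
    rw [hA1, mem_filter] at h1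
    rw [hA2, mem_filter] at h2
    omega
  have hcard : A1.card + A2.card + 1 ≤ M := by
    have h1 : (insert b A).card = A.card + 1 := card_insert_of_notMem hbA
    have h2 : (insert b A).card ≤ (range M).card := card_le_card (by
      intro a ha
      rcases mem_insert.1 ha with h | h
      · subst h; exact mem_range.2 hb
      · exact hA h)
    rw [card_range, h1, hAu, card_union_of_disjoint hdis] at h2
    exact h2
  have hl1 : A1.card < M := by omega
  have hl2 : A2.card < M := by omega
  simp only [hl1, hl2, and_self, dite_true]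
  -- the list
  obtain ⟨l1, hl1'⟩ : ∃ l1 : List ℕ, l1 = A1.sort (· ≤ ·) := ⟨_, rfl⟩
  obtain ⟨l2, hl2'⟩ : ∃ l2 : List ℕ, l2 = A2.sort (· ≤ ·) := ⟨_, rfl⟩
  obtain ⟨l3, hl3'⟩ : ∃ l3 : List ℕ, l3 = List.range' M (M - (A1.card + A2.card + 1)) := ⟨_, rfl⟩
  have hlen1 : l1.length = A1.card := by rw [hl1']; simp
  have hlen2 : l2.length = A2.card := by rw [hl2']; simp
  have hlen3 : l3.length = M - (A1.card + A2.card + 1) := by rw [hl3']; simp
  have hm1 : ∀ a, a ∈ l1 ↔ a ∈ A1 := by intro a; rw [hl1']; simp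
  have hm2 : ∀ a, a ∈ l2 ↔ a ∈ A2 := by intro a; rw [hl2']; simp
  have hm3 : ∀ a ∈ l3, M ≤ a ∧ a < 2 * M := by
    intro a ha
    rw [hl3', List.mem_range'_1] at ha
    omega
  have hA1b : ∀ a ∈ A1, a < b := by intro a ha; rw [hA1, mem_filter] at ha; exact ha.2
  have hA2b : ∀ a ∈ A2, b < a ∧ a < M := by
    intro a ha; rw [hA2, mem_filter] at ha
    exact ⟨ha.2, mem_range.1 (hA ha.1)⟩
  have hpw : (l1 ++ (b :: (l2 ++ l3))).Pairwise (· < ·) := by
    rw [List.pairwise_append, List.pairwise_cons, List.pairwise_append]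
    refine ⟨by rw [hl1']; exact (Finset.sortedLT_sort A1).pairwise, ⟨?_, by rw [hl2']; exact (Finset.sortedLT_sort A2).pairwise, by rw [hl3']; exact List.pairwise_lt_range' (s := M) (n := _), ?_⟩, ?_⟩
    · intro a ha
      rcases List.mem_append.1 ha with h | h
      · exact (hA2b a ((hm2 a).1 h)).1
      · have := hm3 a h; omega
    · intro a ha a' ha'
      have h1 := hA2b a ((hm2 a).1 ha)
      have h2 := hm3 a' ha'
      omega
    · intro a ha a' ha'
      have h1 := hA1b a ((hm1 a).1 ha)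
      rcases List.mem_cons.1 ha' with h | h
      · omega
      · rcases List.mem_append.1 h with h | h
        · have := hA2b a' ((hm2 a').1 h); omega
        · have := hm3 a' h; omega
  have hbd : ∀ a ∈ l1 ++ (b :: (l2 ++ l3)), a < 2 * M := by
    intro a ha
    rcases List.mem_append.1 ha with h | h
    · have := hA1b a ((hm1 a).1 h); omega
    · rcases List.mem_cons.1 h with h | h
      · omega
      · rcases List.mem_append.1 h with h | h
        · have := hA2b a ((hm2 a).1 h); omega
        · exact (hm3 a h).2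
  have hL := hk ((l1 ++ (b :: (l2 ++ l3))).map g) (by
      rw [List.length_map, List.length_append, List.length_cons, List.length_append, hlen1, hlen2,
        hlen3]
      omega)
    (by
      rw [List.pairwise_map]
      refine List.Pairwise.imp_of_mem ?_ hpw
      intro a a' _ ha' haa
      exact hgm a a' haa (hbd a' ha'))
    (by
      intro x hx
      obtain ⟨a, ha, rfl⟩ := List.mem_map.1 hx
      exact hgT a (hbd a ha))
  have hL2 := congrFun (congrFun hL ⟨A1.card, hl1⟩) ⟨A2.card, hl2⟩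
  rw [← hL2]
  have e1 : ((l1 ++ (b :: (l2 ++ l3))).map g).take A1.card = l1.map g := by
    rw [List.map_append]
    exact List.take_left' (by rw [List.length_map, hlen1])
  have e2 : ((l1 ++ (b :: (l2 ++ l3))).map g).drop (A1.card + 1) = (l2 ++ l3).map g := by
    rw [List.map_append, List.map_cons, ← List.drop_drop,
      List.drop_left' (by rw [List.length_map, hlen1])]
    rfl
  have e3 : ((l2 ++ l3).map g).take A2.card = l2.map g := by
    rw [List.map_append]
    exact List.take_left' (by rw [List.length_map, hlen2])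
  have e4 : ((l1 ++ (b :: (l2 ++ l3))).map g).getD A1.card 0 = g b := by
    rw [List.map_append, List.map_cons, List.getD_append_right _ _ _ _ (by
      rw [List.length_map, hlen1]), List.length_map, hlen1, Nat.sub_self]
    rfl
  simp only
  rw [e1, e2, e3, e4]
  congr 1
  ext x
  simp only [List.mem_toFinset, List.mem_append, List.mem_map, mem_image]
  rw [hAu]
  constructor
  · rintro ⟨a, ha, rfl⟩
    rcases mem_union.1 ha with h | h
    · exact Or.inl ⟨a, (hm1 a).2 h, rfl⟩
    · exact Or.inr ⟨a, (hm2 a).2 h, rfl⟩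
  · rintro (⟨a, ha, rfl⟩ | ⟨a, ha, rfl⟩)
    · exact ⟨a, mem_union_left _ ((hm1 a).1 ha), rfl⟩
    · exact ⟨a, mem_union_right _ ((hm2 a).1 ha), rfl⟩

end Pool.Agent.R326.PC
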