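import Pool.Agent.R326.PC.Rigid
import Pool.Agent.R326.PC.Chain
import Pool.Agent.R326.PC.Simple

set_option autoImplicit false

/-! A copy of the staircase graph missing a colour. -/

namespace Pool.Agent.R326.PC

open Finset

/-- the vertex with set of ones `A` -/
def vtx (n : ℕ) (A : Finset ℕ) : Fin n → Bool := fun q => decide (q.val ∈ A)

lemma vtx_diff {n : ℕ} {A : Finset ℕ} {b : ℕ} (hb : b < n) (hbA : b ∉ A) :
    DiffAt (vtx n A) (vtx n (insert b A)) ⟨b, hb⟩ := by
  intro j
  unfold vtx
  by_cases h : j.val = b
  · have : j = ⟨b, hb⟩ := Fin.ext h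
    subst this
    simp [hbA]
  · have hne : j ≠ ⟨b, hb⟩ := fun hh => h (by rw [hh])
    simp [h, hne]

section
variable {d N : ℕ} (α : ℕ → ℕ) (hα1 : ∀ t, t < d → α t ≤ N)
  (hα2 : ∀ t t', t ≤ t' → t' < d → α t ≤ α t')

/-- the set of ones -/
def SS (d N : ℕ) (α : ℕ → ℕ) (x : Fin d → Bool) : Finset ℕ :=
  (range (N + d)).filter (fun a => ∀ i : Fin d, a = α i + i → x i = true)

lemma mem_SS {x : Fin d → Bool} {a : ℕ} :
    a ∈ SS d N α x ↔ a < N + d ∧ ∀ i : Fin d, a = α i + i → x i = true := by
  unfold SS; rw [mem_filter, mem_range]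

include hα2 in
lemma p_lt {i j : Fin d} (h : i < j) : α i + i < α j + j := by
  have h1 : i.val < j.val := h
  have := hα2 i j (le_of_lt h1) j.isLt
  omega

include hα2 in
lemma p_inj {i j : Fin d} (h : α i + i.val = α j + j.val) : i = j := by
  rcases lt_trichotomy i j with h1 | h1 | h1
  · have := p_lt α hα2 h1; omega
  · exact h1
  · have := p_lt α hα2 h1; omega

include hα2 in
lemma p_lt_iff {i j : Fin d} : α i + i.val < α j + j.val ↔ i < j := by
  constructor
  · intro h
    rcases lt_trichotomy i j with h1 | h1 | h1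
    · exact h1
    · subst h1; omega
    · have := p_lt α hα2 h1; omega
  · exact p_lt α hα2

include hα1 hα2 in
lemma p_mem {x : Fin d → Bool} {i : Fin d} : α i + i.val ∈ SS d N α x ↔ x i = true := by
  rw [mem_SS]
  constructor
  · intro h; exact h.2 i rfl
  · intro h
    have := hα1 i i.isLt
    have := i.isLt
    refine ⟨by omega, fun j hj => ?_⟩
    rw [← p_inj α hα2 hj]; exact h

include hα1 hα2 in
lemma SS_fl {x : Fin d → Bool} {i : Fin d} (hx : x i = false) :
    SS d N α (fl x i) = insert (α i + i.val) (SS d N α x) := by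
  ext a
  rw [mem_insert, mem_SS, mem_SS]
  have h1 := hα1 i i.isLt
  have h2 := i.isLt
  constructor
  · rintro ⟨h3, h4⟩
    by_cases ha : a = α i + i.val
    · exact Or.inl ha
    · right
      refine ⟨h3, fun j hj => ?_⟩
      have := h4 j hj
      have hne : j ≠ i := by rintro rfl; exact ha hj
      rwa [fl_ne _ hne] at this
  · rintro (h | ⟨h3, h4⟩)
    · refine ⟨by omega, fun j hj => ?_⟩
      have : i = j := p_inj α hα2 (h.symm.trans hj)
      subst this
      rw [fl_same, hx]; rfl
    · refine ⟨h3, fun j hj => ?_⟩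
      have h5 := h4 j hj
      have hne : j ≠ i := by rintro rfl; rw [hx] at h5; exact absurd h5 (by simp)
      rw [fl_ne _ hne]; exact h5

include hα1 hα2 in
lemma count_lt (x : Fin d → Bool) (i : Fin d) :
    ((SS d N α x).filter (fun a => a < α i + i.val)).card +
      (univ.filter (fun j : Fin d => j < i ∧ x j = false)).card = α i + i.val := by
  classical
  have h1 := hα1 i i.isLt
  have h2 := i.isLt
  have key : range (α i + i.val) = ((SS d N α x).filter (fun a => a < α i + i.val)) ∪
      (univ.filter (fun j : Fin d => j < i ∧ x j = false)).image (fun j : Fin d => α j.val + j.val) := by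
    ext a
    simp only [mem_range, mem_union, mem_filter, mem_image, mem_univ, true_and, mem_SS]
    constructor
    · intro ha
      by_cases hc : ∀ j : Fin d, a = α j + j.val → x j = true
      · exact Or.inl ⟨⟨by omega, hc⟩, ha⟩
      · right
        push Not at hc
        obtain ⟨j, hj, hxj⟩ := hc
        refine ⟨j, ⟨?_, by simpa using hxj⟩, hj.symm⟩
        rw [hj] at ha
        exact (p_lt_iff α hα2).1 ha
    · rintro (h | ⟨j, ⟨hji, _⟩, rfl⟩)
      · exact h.2
      · exact p_lt α hα2 hji
  have hdis : Disjoint ((SS d N α x).filter (fun a => a < α i + i.val))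
      ((univ.filter (fun j : Fin d => j < i ∧ x j = false)).image (fun j : Fin d => α j.val + j.val)) := by
    rw [Finset.disjoint_left]
    intro a ha hb
    rw [mem_filter, mem_SS] at ha
    rw [mem_image] at hb
    obtain ⟨j, hj, rfl⟩ := hb
    rw [mem_filter] at hj
    have := ha.1.2 j rfl
    rw [hj.2.2] at this
    exact absurd this (by simp)
  have hc := congrArg Finset.card key
  rw [card_range, card_union_of_disjoint hdis, card_image_of_injective _
    (fun i j h => p_inj α hα2 h)] at hc
  exact hc.symm

include hα1 hα2 in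
lemma count_gt (x : Fin d → Bool) (i : Fin d) :
    ((SS d N α x).filter (fun a => α i + i.val < a)).card +
      (univ.filter (fun j : Fin d => i < j ∧ x j = false)).card + (α i + i.val) + 1 = N + d := by
  classical
  have h1 := hα1 i i.isLt
  have h2 := i.isLt
  have key : Finset.Ioo (α i + i.val) (N + d) =
      ((SS d N α x).filter (fun a => α i + i.val < a)) ∪
      (univ.filter (fun j : Fin d => i < j ∧ x j = false)).image (fun j : Fin d => α j.val + j.val) := by
    ext a
    simp only [mem_Ioo, mem_union, mem_filter, mem_image, mem_univ, true_and, mem_SS]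
    constructor
    · rintro ⟨ha, ha2⟩
      by_cases hc : ∀ j : Fin d, a = α j + j.val → x j = true
      · exact Or.inl ⟨⟨ha2, hc⟩, ha⟩
      · right
        push Not at hc
        obtain ⟨j, hj, hxj⟩ := hc
        refine ⟨j, ⟨?_, by simpa using hxj⟩, hj.symm⟩
        rw [hj] at ha
        exact (p_lt_iff α hα2).1 ha
    · rintro (h | ⟨j, ⟨hji, _⟩, rfl⟩)
      · exact ⟨h.2, h.1.1⟩
      · have h3 := hα1 j j.isLt
        have h4 := j.isLt
        exact ⟨p_lt α hα2 hji, by omega⟩
  have hdis : Disjoint ((SS d N α x).filter (fun a => α i + i.val < a))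
      ((univ.filter (fun j : Fin d => i < j ∧ x j = false)).image (fun j : Fin d => α j.val + j.val)) := by
    rw [Finset.disjoint_left]
    intro a ha hb
    rw [mem_filter, mem_SS] at ha
    rw [mem_image] at hb
    obtain ⟨j, hj, rfl⟩ := hb
    rw [mem_filter] at hj
    have := ha.1.2 j rfl
    rw [hj.2.2] at this
    exact absurd this (by simp)
  have hc := congrArg Finset.card key
  rw [Nat.card_Ioo, card_union_of_disjoint hdis, card_image_of_injective _
    (fun i j h => p_inj α hα2 h)] at hc
  omega

lemma card_lt_false (x : Fin d → Bool) (i : Fin d) :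
    (univ.filter (fun j : Fin d => j < i ∧ x j = false)).card +
      (univ.filter (fun j : Fin d => j < i ∧ x j = true)).card = i.val := by
  have h : (univ.filter (fun j : Fin d => j < i)).card = i.val := by
    have e : (univ.filter (fun j : Fin d => j < i)) = Finset.Iio i := by
      ext j; simp
    rw [e, Fin.card_Iio]
  rw [← h, ← card_union_of_disjoint]
  · congr 1
    ext j
    simp only [mem_union, mem_filter, mem_univ, true_and]
    cases x j <;> simp
  · rw [Finset.disjoint_left]
    intro j h1 h2
    simp only [mem_filter, mem_univ, true_and] at h1 h2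
    rw [h1.2] at h2
    exact absurd h2.2 (by simp)

lemma card_gt_false (x : Fin d → Bool) (i : Fin d) :
    (univ.filter (fun j : Fin d => i < j ∧ x j = false)).card +
      (univ.filter (fun j : Fin d => i < j ∧ x j = true)).card + i.val + 1 = d := by
  have h : (univ.filter (fun j : Fin d => i < j)).card = d - 1 - i.val := by
    have e : (univ.filter (fun j : Fin d => i < j)) = Finset.Ioi i := by
      ext j; simp
    rw [e, Fin.card_Ioi]
  have h2 : (univ.filter (fun j : Fin d => i < j ∧ x j = false)).card +
      (univ.filter (fun j : Fin d => i < j ∧ x j = true)).card =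
      (univ.filter (fun j : Fin d => i < j)).card := by
    rw [← card_union_of_disjoint]
    · congr 1
      ext j
      simp only [mem_union, mem_filter, mem_univ, true_and]
      cases x j <;> simp
    · rw [Finset.disjoint_left]
      intro j h1 h2
      simp only [mem_filter, mem_univ, true_and] at h1 h2
      rw [h1.2] at h2
      exact absurd h2.2 (by simp)
  have := i.isLt
  omega

include hα1 hα2 in
/-- the numbers of ones to the left and to the right of an edge of the staircase graph -/
lemma counts {x : Fin d → Bool} {i : Fin d} (hc : Cond i x) : ∃ k, k < d ∧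
    ((SS d N α x).filter (fun a => a < α i + i.val)).card = α i + min k i.val ∧
    ((SS d N α x).filter (fun a => α i + i.val < a)).card = N - α i + (k - min k i.val) := by
  have e1 := count_lt α hα1 hα2 x i
  have e2 := count_gt α hα1 hα2 x i
  have e3 := card_lt_false x i
  have e4 := card_gt_false x i
  have h1 := hα1 i i.isLt
  have h2 := i.isLt
  refine ⟨(univ.filter (fun j : Fin d => j < i ∧ x j = true)).card +
    (univ.filter (fun j : Fin d => i < j ∧ x j = true)).card, by omega, ?_⟩
  rcases hc with hc | hc
  · have h3 : (univ.filter (fun j : Fin d => i < j ∧ x j = true)).card = 0 := by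
      rw [card_eq_zero, filter_eq_empty_iff]
      intro j _ hj
      rw [hc j hj.1] at hj
      exact absurd hj.2 (by simp)
    constructor <;> omega
  · have h3 : (univ.filter (fun j : Fin d => j < i ∧ x j = false)).card = 0 := by
      rw [card_eq_zero, filter_eq_empty_iff]
      intro j _ hj
      rw [hc j hj.1] at hj
      exact absurd hj.2 (by simp)
    constructor <;> omega

end

lemma upper {d s : ℕ} (hd : 0 < d) (hs : d + 1 ≤ s) : ∃ n, 1 ≤ n ∧
    ∀ χ0 : (Q n).edgeSet → Fin s, ∃ f : GG d →g Q n, Function.Injective f ∧ ∃ c : Fin s,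
      ∀ u v, ∀ h : (GG d).Adj u v,
        χ0 ⟨s(f u, f v), (Q n).mem_edgeSet.2 (f.map_adj h)⟩ ≠ c := by
  classical
  have : NeZero s := ⟨by omega⟩
  obtain ⟨N, hN⟩ : ∃ N, N = d * d := ⟨_, rfl⟩
  obtain ⟨n, hn, hE⟩ := simple s (N + d)
  refine ⟨n, hn, fun χ0 => ?_⟩
  obtain ⟨g, hg1, hg2, χ, hχ⟩ := hE (fun A b =>
    if h : (Q n).Adj (vtx n A) (vtx n (insert b A)) then
      χ0 ⟨s(vtx n A, vtx n (insert b A)), (Q n).mem_edgeSet.2 h⟩ else 0)
  obtain ⟨c, α, hα1, hα2⟩ := exists_chain hs χ N hN
  have hα1' : ∀ t, t < d → α t ≤ N := fun t ht => (hα1 t ht).1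
  have hginj : ∀ a b, a < N + d → b < N + d → g a = g b → a = b := by
    intro a b ha hb he
    rcases lt_trichotomy a b with h | h | h
    · have := hg1 a b h hb; omega
    · exact h
    · have := hg1 b a h ha; omega
  have hSsub : ∀ x : Fin d → Bool, SS d N α x ⊆ range (N + d) := fun x => filter_subset _ _
  have hnot : ∀ (x : Fin d → Bool) (b : ℕ), b < N + d → b ∉ SS d N α x →
      g b ∉ (SS d N α x).image g := by
    intro x b hb hbx hmem
    obtain ⟨a, ha, he⟩ := mem_image.1 hmem
    exact hbx (hginj a b (mem_range.1 (hSsub x ha)) hb he ▸ ha)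
  obtain ⟨F, hF⟩ : ∃ F : (Fin d → Bool) → (Fin n → Bool),
    F = fun x => vtx n ((SS d N α x).image g) := ⟨_, rfl⟩
  have hpN : ∀ i : Fin d, α i + i.val < N + d := fun i => by
    have := hα1' i i.isLt
    have := i.isLt
    omega
  have hstep : ∀ (x : Fin d → Bool) (i : Fin d), x i = false →
      F (fl x i) = vtx n (insert (g (α i + i.val)) ((SS d N α x).image g)) := by
    intro x i hx
    rw [hF]
    simp only
    rw [SS_fl α hα1' hα2 hx, image_insert]
  have hdiff : ∀ (x : Fin d → Bool) (i : Fin d), x i = false →
      ∃ q, DiffAt (F x) (F (fl x i)) q := by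
    intro x i hx
    refine ⟨⟨g (α i + i.val), hg2 _ (hpN i)⟩, ?_⟩
    rw [hstep x i hx, hF]
    apply vtx_diff
    apply hnot x _ (hpN i)
    rw [p_mem α hα1' hα2, hx]
    simp
  have hfl : ∀ (x y : Fin d → Bool) (i : Fin d), (∀ j, x j ≠ y j ↔ j = i) → y = fl x i :=
    fun x y i h => DiffAt.unique_right h (diffAt_fl x i)
  have hadj : ∀ x y, (GG d).Adj x y → (Q n).Adj (F x) (F y) := by
    rintro x y ⟨i, hi, _⟩
    have hy := hfl x y i hi
    cases hxi : x i with
    | false =>
      rw [hy]
      obtain ⟨q, hq⟩ := hdiff x i hxi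
      exact ⟨q, hq⟩
    | true =>
      have hx : x = fl y i := by rw [hy, fl_fl]
      have hyi : y i = false := by rw [hy, fl_same, hxi]; rfl
      rw [hx]
      obtain ⟨q, hq⟩ := hdiff y i hyi
      exact ⟨q, hq.symm⟩
  refine ⟨⟨F, fun {x y} h => hadj x y h⟩, ?_, c, ?_⟩
  · intro x y hxy
    have hxy' : F x = F y := hxy
    funext i
    have h1 := congrFun hxy' ⟨g (α i + i.val), hg2 _ (hpN i)⟩
    rw [hF] at h1
    unfold vtx at h1
    simp only [decide_eq_decide] at h1
    have h2 : ∀ z : Fin d → Bool, g (α i + i.val) ∈ (SS d N α z).image g ↔ z i = true := by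
      intro z
      rw [← p_mem α hα1' hα2 (x := z) (i := i)]
      constructor
      · intro h
        by_contra hc
        exact hnot z _ (hpN i) hc h
      · intro h; exact mem_image_of_mem _ h
    rw [h2, h2] at h1
    cases hx : x i <;> cases hy : y i <;> simp [hx, hy] at h1 ⊢
  · have main : ∀ (x : Fin d → Bool) (i : Fin d) (hx : x i = false) (hc : Cond i x)
        (hA : (Q n).Adj (F x) (F (fl x i))),
        χ0 ⟨s(F x, F (fl x i)), (Q n).mem_edgeSet.2 hA⟩ ≠ c := by
      intro x i hx hc hA heq
      obtain ⟨k, hk, hk1, hk2⟩ := counts (N := N) α hα1' hα2 hc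
      have hb : α i + i.val ∉ SS d N α x := by
        rw [p_mem α hα1' hα2, hx]; simp
      have h1 := hχ (SS d N α x) (hSsub x) (α i + i.val) (hpN i) hb
      rw [hk1, hk2] at h1
      apply (hα1 i i.isLt).2
      refine ⟨k, hk, ?_⟩
      rw [← h1]
      have hA' : (Q n).Adj (vtx n ((SS d N α x).image g))
          (vtx n (insert (g (α i + i.val)) ((SS d N α x).image g))) := by
        have := hA
        rw [hstep x i hx, hF] at this
        exact this
      rw [dif_pos hA', ← heq]
      congr 2
      rw [hstep x i hx, hF]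
    rintro u v ⟨i, hi, hcond⟩
    have hv := hfl u v i hi
    cases hui : u i with
    | false =>
      intro heq
      have hA := hadj u v ⟨i, hi, hcond⟩
      refine main u i hui hcond (hv ▸ hA) ?_
      rw [← heq]
      congr 2
      simp only [RelHom.coeFn_mk]
      rw [← hv]
    | true =>
      intro heq
      have hu : u = fl v i := by rw [hv, fl_fl]
      have hvi : v i = false := by rw [hv, fl_same, hui]; rfl
      have hcv : Cond i v := by rw [hv]; exact cond_fl_self hcond
      have hA : (Q n).Adj (F v) (F (fl v i)) := by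
        rw [← hu]; exact (hadj u v ⟨i, hi, hcond⟩).symm
      refine main v i hvi hcv hA ?_
      rw [← heq]
      congr 2
      simp only [RelHom.coeFn_mk]
      rw [← hu]
      exact Sym2.eq_swap

end Pool.Agent.R326.PC
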